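import Mathlib

/-!
A subspace of dimension `d` of the odd functions on a finite set with a fixed point free involution
is orthogonal to at most a `2 ^ (-d)` share of the types (systems of representatives of the pairs).
-/

set_option autoImplicit false

namespace Pool.Agent.Lib.MP_938ce2_ag_h71

open Module

variable {X : Type} [Fintype X] [DecidableEq X]

/-- A system of representatives of the pairs `{x, c x}`. -/
def IsType (c : X → X) (Φ : Finset X) : Prop := ∀ x, x ∈ Φ ↔ c x ∉ Φ

/-- Coordinates which determine the elements of a subspace. -/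
theorem exists_pivots {F : Type} [Field F] (W : Submodule F (X → F)) :
    ∃ (κ : Type) (_ : Fintype κ) (_ : DecidableEq κ) (a : κ → X) (w : κ → (X → F)),
      (∀ k, w k ∈ W) ∧ (∀ k l, w k (a l) = if k = l then 1 else 0) ∧
      Fintype.card κ = finrank F W := by
  classical
  let v : X → Dual F W := fun x => (LinearMap.proj x).comp W.subtype
  obtain ⟨κ, a, ha, hsp, hli⟩ := exists_linearIndependent' F v
  have : Finite κ := Finite.of_injective a ha
  have := Fintype.ofFinite κ
  have htop : Submodule.span F (Set.range (v ∘ a)) = ⊤ := by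
    rw [hsp]
    apply Submodule.span_eq_top_of_ne_zero
    intro z hz
    by_contra! h
    apply hz
    ext x
    exact h (v x) ⟨x, rfl⟩
  let B : Basis κ F (Dual F W) := Basis.mk hli htop.ge
  refine ⟨κ, inferInstance, Classical.decEq κ, a,
    fun k => ((evalEquiv F W).symm (B.dualBasis k) : W), fun k => Subtype.property _, ?_, ?_⟩
  · intro k l
    have h1 : v (a l) ((evalEquiv F W).symm (B.dualBasis k)) = B.dualBasis k (v (a l)) :=
      apply_evalEquiv_symm_apply F W (v (a l)) (B.dualBasis k)
    have h2 : v (a l) = B l := by simp [B, Basis.mk_apply]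
    rw [h2, Basis.dualBasis_apply_self] at h1
    rw [← h2] at h1
    have h3 : v (a l) ((evalEquiv F W).symm (B.dualBasis k)) =
      ((evalEquiv F W).symm (B.dualBasis k) : W).1 (a l) := rfl
    rw [h3] at h1
    refine h1.trans ?_
    by_cases h : l = k
    · subst h; simp
    · simp [h, Ne.symm h]
  · have := finrank_eq_card_basis B
    rw [← this]
    exact Subspace.dual_finrank_eq

theorem sum_type_congr {F : Type} [AddCommMonoid F] {Φ : Finset X} (f : X → F) :
    ∑ x ∈ Φ, f x = ∑ x, if x ∈ Φ then f x else 0 := by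
  simp [Finset.sum_ite_mem]

/-- The number of types. -/
theorem exists_section (c : X → X) (hc : ∀ x, c (c x) = x) (hne : ∀ x, c x ≠ x) :
    ∃ Φ₀ : Finset X, IsType c Φ₀ := by
  classical
  let e := Fintype.equivFin X
  refine ⟨Finset.univ.filter (fun x => e x < e (c x)), fun x => ?_⟩
  simp only [Finset.mem_filter, Finset.mem_univ, true_and, hc]
  constructor
  · intro h; exact not_lt.2 h.le
  · intro h
    have h1 := not_lt.1 h
    exact lt_of_le_of_ne h1 (fun h2 => hne x (e.injective h2).symm)

theorem card_types (c : X → X) (hc : ∀ x, c (c x) = x) (hne : ∀ x, c x ≠ x) (g : ℕ)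
    (hg : Fintype.card X = 2 * g) :
    (Set.Finite.toFinset (Set.toFinite {Φ : Finset X | IsType c Φ})).card = 2 ^ g := by
  classical
  obtain ⟨Φ₀, h₀⟩ := exists_section c hc hne
  have hinj : Function.Injective c := fun x y h => by rw [← hc x, h, hc]
  have hcompl : Φ₀.image c = Φ₀ᶜ := by
    ext x
    simp only [Finset.mem_image, Finset.mem_compl]
    constructor
    · rintro ⟨y, hy, rfl⟩
      exact (h₀ y).1 hy
    · intro hx
      refine ⟨c x, ?_, hc x⟩
      rw [h₀ (c x), hc]; exact hx
  have hcard : Φ₀.card = g := by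
    have h1 := Finset.card_add_card_compl Φ₀
    rw [← hcompl, Finset.card_image_of_injective _ hinj, hg] at h1
    omega
  rw [← hcard, ← Finset.card_powerset]
  apply Finset.card_bij (fun Φ _ => Φ ∩ Φ₀)
  · intro Φ _
    exact Finset.mem_powerset.2 Finset.inter_subset_right
  · intro Φ hΦ Φ' hΦ' h
    simp only [Set.Finite.mem_toFinset, Set.mem_ofPred_eq] at hΦ hΦ'
    have key : ∀ x ∈ Φ₀, (x ∈ Φ ↔ x ∈ Φ') := by
      intro x hx
      have := congrArg (fun s => x ∈ s) h
      simpa [hx] using this
    ext x
    by_cases hx : x ∈ Φ₀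
    · exact key x hx
    · have hcx : c x ∈ Φ₀ := by
        rw [h₀ (c x), hc]; exact hx
      have := key _ hcx
      rw [hΦ x, hΦ' x, this]
  · intro T hT
    rw [Finset.mem_powerset] at hT
    refine ⟨T ∪ (Φ₀ \ T).image c, ?_, ?_⟩
    · simp only [Set.Finite.mem_toFinset, Set.mem_ofPred_eq]
      intro x
      simp only [Finset.mem_union, Finset.mem_image, Finset.mem_sdiff]
      constructor
      · rintro (hx | ⟨y, ⟨hy1, hy2⟩, rfl⟩)
        · rintro (h | ⟨y, ⟨hy1, hy2⟩, hy3⟩)
          · exact (h₀ x).1 (hT hx) (hT h)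
          · have : y = x := hinj hy3
            exact hy2 (this ▸ hx)
        · rw [hc]
          rintro (h | ⟨z, ⟨hz1, hz2⟩, hz3⟩)
          · exact hy2 h
          · have : y ∈ Φ₀ ∧ y ∉ Φ₀ := ⟨hy1, by rw [← hz3]; exact (h₀ z).1 hz1⟩
            exact this.2 this.1
      · intro h
        by_contra! h'
        by_cases hx : x ∈ Φ₀
        · exact h (Or.inr ⟨x, ⟨hx, h'.1⟩, rfl⟩)
        · have hcx : c x ∈ Φ₀ := by
            rw [h₀ (c x), hc]; exact hx
          have h1 : c x ∉ T := fun h2 => h (Or.inl h2)
          exact h'.2 (c x) ⟨hcx, h1⟩ (hc x)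
    · ext x
      simp only [Finset.mem_inter, Finset.mem_union, Finset.mem_image, Finset.mem_sdiff]
      constructor
      · rintro ⟨h | ⟨y, ⟨hy1, hy2⟩, rfl⟩, hx⟩
        · exact h
        · exact absurd hx ((h₀ y).1 hy1)
      · intro h
        exact ⟨Or.inl h, hT h⟩

/-- The type `Φ` is orthogonal to all the functions in `W`. -/
def Orth {F : Type} [Field F] (W : Submodule F (X → F)) (Φ : Finset X) : Prop :=
  ∀ f ∈ W, ∑ x ∈ Φ, f x = 0

/-- Exchange the representatives of the pairs of the elements of `T`. -/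
def flip (c : X → X) (T : Finset X) (Φ : Finset X) : Finset X :=
  Finset.univ.filter (fun x => if x ∈ T ∨ c x ∈ T then x ∉ Φ else x ∈ Φ)

theorem mem_flip (c : X → X) (T Φ : Finset X) (x : X) :
    x ∈ flip c T Φ ↔ (if x ∈ T ∨ c x ∈ T then x ∉ Φ else x ∈ Φ) := by
  simp [flip]

theorem isType_flip (c : X → X) (hc : ∀ x, c (c x) = x) (T Φ : Finset X) (h : IsType c Φ) :
    IsType c (flip c T Φ) := by
  intro x
  rw [mem_flip, mem_flip, hc]
  have h1 := h x
  by_cases hx : x ∈ T ∨ c x ∈ T
  · have hx' : c x ∈ T ∨ x ∈ T := hx.symm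
    simp only [hx, hx', if_true]
    tauto
  · have hx' : ¬ (c x ∈ T ∨ x ∈ T) := fun h => hx h.symm
    simp only [hx, hx', if_false]
    exact h1

theorem card_orth_mul_le {F : Type} [Field F] (h2 : (2 : F) ≠ 0) (c : X → X)
    (hc : ∀ x, c (c x) = x) (hne : ∀ x, c x ≠ x)
    (g : ℕ) (hg : Fintype.card X = 2 * g) (W : Submodule F (X → F))
    (hodd : ∀ f ∈ W, ∀ x, f (c x) = - f x) :
    (Set.Finite.toFinset (Set.toFinite {Φ : Finset X | IsType c Φ ∧ Orth W Φ})).card
      * 2 ^ (finrank F W) ≤ 2 ^ g := by
  classical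
  obtain ⟨κ, _, _, a, w, hw, hwa, hcard⟩ := exists_pivots W
  rw [← hcard, ← card_types c hc hne g hg]
  have hκ : 2 ^ Fintype.card κ = (Finset.univ : Finset (Finset κ)).card := by
    simp
  rw [hκ, ← Finset.card_product]
  have haj : ∀ k l, w k (c (a l)) = if k = l then -1 else 0 := by
    intro k l
    rw [hodd _ (hw k), hwa]
    split <;> simp
  have hainj : Function.Injective a := by
    intro k l h
    by_contra hkl
    have h1 := hwa k k
    have h3 := hwa k l
    rw [← h] at h3
    rw [h1] at h3
    simp [hkl] at h3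
  have hca : ∀ k l, c (a l) ≠ a k := by
    intro k l h
    have h1 := haj k l
    rw [h, hwa k k] at h1
    by_cases hkl : k = l
    · simp only [hkl, if_true] at h1
      apply h2
      have : (1 : F) + 1 = 0 := by
        nth_rewrite 1 [h1]; ring
      rw [← this]; norm_num
    · simp [hkl] at h1
  apply Finset.card_le_card_of_injOn (fun p => flip c (p.2.image a) p.1)
  · rintro ⟨Φ, T⟩ hp
    simp only [Finset.coe_product, Set.mem_prod, Finset.mem_coe, Set.Finite.mem_toFinset,
      Set.mem_ofPred_eq] at hp ⊢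
    exact isType_flip c hc _ _ hp.1.1
  · rintro ⟨Φ, T⟩ hp ⟨Φ', T'⟩ hp' h
    simp only [Finset.coe_product, Set.mem_prod, Finset.mem_coe, Set.Finite.mem_toFinset,
      Set.mem_ofPred_eq] at hp hp' h
    obtain ⟨⟨hΦ, hO⟩, -⟩ := hp
    obtain ⟨⟨hΦ', hO'⟩, -⟩ := hp'
    -- the two types agree outside the pairs of the `a k`
    have hoff : ∀ x, (∀ k, x ≠ a k) → (∀ k, x ≠ c (a k)) → (x ∈ Φ ↔ x ∈ Φ') := by
      intro x hx hx'
      have h1 : ¬ (x ∈ T.image a ∨ c x ∈ T.image a) := by
        rintro (h | h)
        · obtain ⟨k, _, hk⟩ := Finset.mem_image.1 h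
          exact hx k hk.symm
        · obtain ⟨k, _, hk⟩ := Finset.mem_image.1 h
          exact hx' k (by rw [hk, hc])
      have h1' : ¬ (x ∈ T'.image a ∨ c x ∈ T'.image a) := by
        rintro (h | h)
        · obtain ⟨k, _, hk⟩ := Finset.mem_image.1 h
          exact hx k hk.symm
        · obtain ⟨k, _, hk⟩ := Finset.mem_image.1 h
          exact hx' k (by rw [hk, hc])
      have h3 : (x ∈ flip c (T.image a) Φ) ↔ (x ∈ flip c (T'.image a) Φ') := by rw [h]
      rw [mem_flip, mem_flip, if_neg h1, if_neg h1'] at h3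
      exact h3
    have hon : ∀ k, (a k ∈ Φ ↔ a k ∈ Φ') := by
      intro k
      have e1 := hO (w k) (hw k)
      have e2 := hO' (w k) (hw k)
      rw [sum_type_congr] at e1 e2
      have e3 : ∑ x, ((if x ∈ Φ then w k x else 0) - (if x ∈ Φ' then w k x else 0)) = 0 := by
        rw [Finset.sum_sub_distrib, e1, e2, sub_zero]
      have e4 : ∑ x, ((if x ∈ Φ then w k x else 0) - (if x ∈ Φ' then w k x else 0)) =
          ∑ x ∈ ({a k, c (a k)} : Finset X),
            ((if x ∈ Φ then w k x else 0) - (if x ∈ Φ' then w k x else 0)) := by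
        symm
        apply Finset.sum_subset (Finset.subset_univ _)
        intro x _ hx
        simp only [Finset.mem_insert, Finset.mem_singleton, not_or] at hx
        by_cases hex : (∃ l, x = a l) ∨ (∃ l, x = c (a l))
        · rcases hex with ⟨l, rfl⟩ | ⟨l, rfl⟩
          · have hkl : k ≠ l := fun h => hx.1 (by rw [h])
            rw [hwa]; simp [hkl]
          · have hkl : k ≠ l := fun h => hx.2 (by rw [h])
            rw [haj]; simp [hkl]
        · push Not at hex
          have := hoff x hex.1 hex.2
          simp only [this, sub_self]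
      rw [e4, Finset.sum_pair (fun h => hne _ h.symm), hwa, haj] at e3
      simp only [if_true] at e3
      have p1 := hΦ (a k)
      have p2 := hΦ' (a k)
      by_cases q1 : a k ∈ Φ
      · by_cases q2 : a k ∈ Φ'
        · simp [q1, q2]
        · exfalso
          have q3 := p1.1 q1
          have q4 : c (a k) ∈ Φ' := by by_contra h; exact q2 (p2.2 h)
          simp only [q1, q2, q3, q4, if_true, if_false] at e3
          apply h2
          rw [← e3]; ring
      · by_cases q2 : a k ∈ Φ'
        · exfalso
          have q3 := p2.1 q2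
          have q4 : c (a k) ∈ Φ := by by_contra h; exact q1 (p1.2 h)
          simp only [q1, q2, q3, q4, if_true, if_false] at e3
          apply h2
          have : (2 : F) = -(0 - 1 + (-1 - 0)) := by ring
          rw [this, e3, neg_zero]
        · simp [q1, q2]
    have hEq : Φ = Φ' := by
      ext x
      by_cases h1 : ∃ k, x = a k
      · obtain ⟨k, rfl⟩ := h1; exact hon k
      · by_cases h3 : ∃ k, x = c (a k)
        · obtain ⟨k, rfl⟩ := h3
          have := hon k
          rw [hΦ (a k), hΦ' (a k)] at this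
          tauto
        · push Not at h1 h3
          exact hoff x h1 h3
    subst hEq
    have hT : T = T' := by
      ext k
      have h3 : (a k ∈ flip c (T.image a) Φ) ↔ (a k ∈ flip c (T'.image a) Φ) := by rw [h]
      rw [mem_flip, mem_flip] at h3
      have h4 : ∀ S : Finset κ, (a k ∈ S.image a ∨ c (a k) ∈ S.image a) ↔ k ∈ S := by
        intro S
        constructor
        · rintro (h | h)
          · obtain ⟨l, hl, hl'⟩ := Finset.mem_image.1 h
            exact hainj hl' ▸ hl
          · obtain ⟨l, hl, hl'⟩ := Finset.mem_image.1 h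
            exact absurd hl'.symm (hca l k)
        · intro h
          exact Or.inl (Finset.mem_image_of_mem a h)
      simp only [h4] at h3
      by_cases q1 : k ∈ T <;> by_cases q2 : k ∈ T' <;> simp [q1, q2] at h3 ⊢
    rw [hT]

end Pool.Agent.Lib.MP_938ce2_ag_h71
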