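import Mathlib
import Pool.Agent.Lib.MP_938ce2_ag_h71.Odlyzko

/-!
A group `Γ` acts on a finite set `X` and commutes with a fixed point free involution `c`. The
elements of `Γ` which map every `x` to `x` or to `c x` act on the odd functions on `X` by signs; the
blocks are the sets of points of `X` on which the signs are the same.
-/

set_option autoImplicit false

namespace Pool.Agent.Lib.MP_938ce2_ag_h71

open Module

variable {X : Type} {Γ : Type} [Group Γ] [MulAction Γ X]

/-- The element `n` maps every point `x` to `x` or to `c x`. -/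
def IsSignElt (c : X → X) (n : Γ) : Prop := ∀ x : X, n • x = x ∨ n • x = c x

variable (Γ) in
/-- The elements of `Γ` which map every point to itself or to its conjugate fix both `x` and `y` or
none of them. -/
def Blk (c : X → X) (x y : X) : Prop := ∀ n : Γ, IsSignElt c n → (n • x = x ↔ n • y = y)

variable (c : X → X)

theorem Blk.refl (x : X) : Blk Γ c x x := fun _ _ => Iff.rfl

theorem Blk.symm {x y : X} (h : Blk Γ c x y) : Blk Γ c y x := fun n hn => (h n hn).symm

theorem Blk.trans {x y z : X} (h : Blk Γ c x y) (h' : Blk Γ c y z) : Blk Γ c x z :=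
  fun n hn => (h n hn).trans (h' n hn)

variable (Γ) in
/-- The equivalence relation whose classes are the blocks. -/
def blkSetoid : Setoid X where
  r := Blk Γ c
  iseqv := ⟨Blk.refl c, Blk.symm c, Blk.trans c⟩

theorem isSignElt_conj (hcomm : ∀ (γ : Γ) (x : X), c (γ • x) = γ • c x) {n : Γ}
    (hn : IsSignElt c n) (γ : Γ) : IsSignElt c (γ⁻¹ * n * γ) := by
  intro z
  rcases hn (γ • z) with h | h
  · left
    rw [mul_smul, mul_smul, h, inv_smul_smul]
  · right
    rw [mul_smul, mul_smul, h, hcomm, inv_smul_smul]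

theorem Blk.smul (hcomm : ∀ (γ : Γ) (x : X), c (γ • x) = γ • c x) {x y : X} (h : Blk Γ c x y)
    (γ : Γ) : Blk Γ c (γ • x) (γ • y) := by
  intro n hn
  have h1 := h _ (isSignElt_conj c hcomm hn γ)
  have h2 : ∀ z : X, (γ⁻¹ * n * γ) • z = z ↔ n • γ • z = γ • z := by
    intro z
    rw [mul_smul, mul_smul, inv_smul_eq_iff]
  rw [h2, h2] at h1
  exact h1

variable {F : Type} [Field F]

/-- The subspace is stable under the group. -/
def Inv (Γ : Type) [Group Γ] [MulAction Γ X] (W : Submodule F (X → F)) : Prop :=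
  ∀ γ : Γ, ∀ f ∈ W, (fun x => f (γ • x)) ∈ W

/-- The elements of the subspace are odd functions. -/
def Odd (W : Submodule F (X → F)) : Prop := ∀ f ∈ W, ∀ x, f (c x) = - f x

theorem Inv.inf {W W' : Submodule F (X → F)} (h : Inv Γ W) (h' : Inv Γ W') : Inv Γ (W ⊓ W') :=
  fun γ f hf => ⟨h γ f hf.1, h' γ f hf.2⟩

theorem Inv.sup {W W' : Submodule F (X → F)} (h : Inv Γ W) (h' : Inv Γ W') : Inv Γ (W ⊔ W') := by
  intro γ f hf
  obtain ⟨u, hu, v, hv, rfl⟩ := Submodule.mem_sup.1 hf
  exact Submodule.mem_sup.2 ⟨_, h γ u hu, _, h' γ v hv, rfl⟩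

open Classical in
/-- The restriction of `f` to the block of `x₀`. -/
noncomputable def cut (Γ : Type) [Group Γ] [MulAction Γ X] (x₀ : X) (f : X → F) : X → F :=
  fun y => if Blk Γ c x₀ y then f y else 0

theorem cut_self (x₀ : X) (f : X → F) : cut c Γ x₀ f x₀ = f x₀ := by
  simp [cut, Blk.refl]

theorem cut_mem [Fintype X] (h2 : (2 : F) ≠ 0) (hc : ∀ x, c (c x) = x)
    (hcomm : ∀ (γ : Γ) (x : X), c (γ • x) = γ • c x)
    (W : Submodule F (X → F)) (hinv : Inv Γ W) (hodd : Odd c W) (x₀ : X) (f : X → F)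
    (hf : f ∈ W) : cut c Γ x₀ f ∈ W := by
  classical
  have key : ∀ T : Finset X, (∀ y ∈ T, ¬ Blk Γ c x₀ y) →
      ∃ f' ∈ W, (∀ y, Blk Γ c x₀ y → f' y = f y) ∧ (∀ y ∈ T, f' y = 0) := by
    intro T
    induction T using Finset.induction_on with
    | empty => exact fun _ => ⟨f, hf, fun y _ => rfl, by simp⟩
    | insert x T hx ih =>
      intro hT
      obtain ⟨f', hf', h1, h3⟩ := ih (fun y hy => hT y (Finset.mem_insert_of_mem hy))
      have hbx := hT x (Finset.mem_insert_self _ _)
      unfold Blk at hbx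
      push Not at hbx
      obtain ⟨n, hn, hnx⟩ := hbx
      -- the function `y ↦ f' (n • y)` is `± f'`
      have hval : ∀ y, f' (n • y) = if n • y = y then f' y else - f' y := by
        intro y
        split
        · next h => rw [h]
        · next h =>
          rcases hn y with h' | h'
          · exact absurd h' h
          · rw [h', hodd f' hf']
      let s : F := if n • x₀ = x₀ then 1 else -1
      refine ⟨(2 : F)⁻¹ • (f' + s • fun y => f' (n • y)), ?_, ?_, ?_⟩
      · exact W.smul_mem _ (W.add_mem hf' (W.smul_mem _ (hinv n f' hf')))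
      · intro y hy
        have h4 := hy n hn
        simp only [Pi.smul_apply, Pi.add_apply, smul_eq_mul, hval, s]
        by_cases h5 : n • x₀ = x₀
        · have h6 := h4.1 h5
          simp only [h5, h6, if_true]
          rw [← h1 y hy]; field_simp; ring
        · have h6 : ¬ n • y = y := fun h => h5 (h4.2 h)
          simp only [h5, h6, if_false]
          rw [← h1 y hy]; field_simp; ring
      · intro y hy
        simp only [Pi.smul_apply, Pi.add_apply, smul_eq_mul, hval, s]
        rcases Finset.mem_insert.1 hy with rfl | hy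
        · rcases hnx with ⟨h5, h6⟩ | ⟨h5, h6⟩
          · simp only [h5, h6, if_true, if_false]; ring
          · simp only [h5, h6, if_true, if_false]; ring
        · rw [h3 y hy]; simp
  obtain ⟨f', hf', h1, h3⟩ := key (Finset.univ.filter (fun y => ¬ Blk Γ c x₀ y)) (by simp)
  have : cut c Γ x₀ f = f' := by
    funext y
    unfold cut
    by_cases h : Blk Γ c x₀ y
    · rw [if_pos h, h1 y h]
    · rw [if_neg h, h3 y (by simp [h])]
  rw [this]; exact hf'

/-- The functions supported on the block of `x₀`. -/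
def suppBlk (F : Type) [Field F] (Γ : Type) [Group Γ] [MulAction Γ X] (x₀ : X) :
    Submodule F (X → F) where
  carrier := {f | ∀ y, ¬ Blk Γ c x₀ y → f y = 0}
  add_mem' := by
    intro a b ha hb y hy
    rw [Pi.add_apply, ha y hy, hb y hy, add_zero]
  zero_mem' := fun _ _ => rfl
  smul_mem' := by
    intro r a ha y hy
    rw [Pi.smul_apply, ha y hy, smul_zero]

theorem mem_suppBlk (x₀ : X) (f : X → F) :
    f ∈ suppBlk c F Γ x₀ ↔ ∀ y, ¬ Blk Γ c x₀ y → f y = 0 := Iff.rfl

theorem cut_mem_suppBlk (x₀ : X) (f : X → F) : cut c Γ x₀ f ∈ suppBlk c F Γ x₀ := by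
  intro y hy
  simp [cut, hy]

theorem finrank_ge [Fintype X] (hcomm : ∀ (γ : Γ) (x : X), c (γ • x) = γ • c x)
    [MulAction.IsPretransitive Γ X] (x₀ : X) (W : Submodule F (X → F)) (hinv : Inv Γ W) :
    Nat.card (Quotient (blkSetoid Γ c)) * finrank F (W ⊓ suppBlk c F Γ x₀ : Submodule F (X → F))
      ≤ finrank F W := by
  classical
  let _ : Setoid X := blkSetoid Γ c
  have : Finite (Quotient (blkSetoid Γ c)) := Quotient.finite _
  let _ : Fintype (Quotient (blkSetoid Γ c)) := Fintype.ofFinite _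
  rw [Nat.card_eq_fintype_card]
  have hγ : ∀ q : Quotient (blkSetoid Γ c), ∃ γ : Γ, (Quotient.mk (blkSetoid Γ c) (γ • x₀)) = q := by
    intro q
    obtain ⟨γ, h⟩ := MulAction.exists_smul_eq Γ x₀ q.out
    exact ⟨γ, by rw [h]; exact Quotient.out_eq q⟩
  choose γ hγ using hγ
  set W₀ := (W ⊓ suppBlk c F Γ x₀ : Submodule F (X → F)) with hW₀
  let Ψ : (Quotient (blkSetoid Γ c) → W₀) →ₗ[F] W :=
    { toFun := fun f => ⟨∑ q, fun x => (f q : X → F) ((γ q)⁻¹ • x),
        W.sum_mem fun q _ => hinv _ _ (f q).2.1⟩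
      map_add' := by
        intro f f'
        apply Subtype.ext
        funext x
        simp [Finset.sum_apply, Finset.sum_add_distrib]
      map_smul' := by
        intro r f
        apply Subtype.ext
        funext x
        simp [Finset.sum_apply, Finset.mul_sum] }
  have hΨ : Function.Injective Ψ := by
    rw [← LinearMap.ker_eq_bot, LinearMap.ker_eq_bot']
    intro f hf
    funext q
    apply Subtype.ext
    funext z
    have h1 : (Ψ f : X → F) (γ q • z) = 0 := by rw [hf]; rfl
    have h3 : (Ψ f : X → F) (γ q • z) = ∑ q', (f q' : X → F) ((γ q')⁻¹ • γ q • z) := by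
      simp only [Ψ, LinearMap.coe_mk, AddHom.coe_mk, Finset.sum_apply]
    rw [h3] at h1
    by_cases hz : Blk Γ c x₀ z
    · rw [Finset.sum_eq_single q] at h1
      · rw [inv_smul_smul] at h1
        exact h1
      · intro q' _ hq'
        apply (f q').2.2
        intro h5
        apply hq'
        have h6 := Blk.smul c hcomm h5 (γ q')
        rw [smul_inv_smul] at h6
        have h7 := Blk.smul c hcomm hz (γ q)
        have h8 : Blk Γ c (γ q' • x₀) (γ q • x₀) := h6.trans c (h7.symm c)
        rw [← hγ q, ← hγ q']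
        exact Quotient.sound h8
      · simp
    · exact (f q).2.2 z hz
  have h4 := LinearMap.finrank_le_finrank_of_injective hΨ
  rwa [Module.finrank_pi_fintype, Finset.sum_const, Finset.card_univ, smul_eq_mul] at h4

theorem one_le_finrank [Fintype X] (h2 : (2 : F) ≠ 0) (hc : ∀ x, c (c x) = x)
    (hcomm : ∀ (γ : Γ) (x : X), c (γ • x) = γ • c x)
    [MulAction.IsPretransitive Γ X] (x₀ : X) (W : Submodule F (X → F)) (hinv : Inv Γ W)
    (hodd : Odd c W) (hW : W ≠ ⊥) :
    1 ≤ finrank F (W ⊓ suppBlk c F Γ x₀ : Submodule F (X → F)) := by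
  obtain ⟨f, hf, hf0⟩ := W.ne_bot_iff.1 hW
  obtain ⟨y, hy⟩ : ∃ y, f y ≠ 0 := by
    by_contra! h
    exact hf0 (funext h)
  obtain ⟨γ, rfl⟩ := MulAction.exists_smul_eq Γ x₀ y
  have h1 := cut_mem c h2 hc hcomm W hinv hodd x₀ _ (hinv γ f hf)
  have h3 := cut_mem_suppBlk (F := F) (Γ := Γ) c x₀ (fun x => f (γ • x))
  have h4 : (W ⊓ suppBlk c F Γ x₀ : Submodule F (X → F)) ≠ ⊥ := by
    rw [Submodule.ne_bot_iff]
    refine ⟨_, ⟨h1, h3⟩, ?_⟩
    intro h5
    have h6 := congrFun h5 x₀
    rw [cut_self] at h6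
    exact hy h6
  exact Nat.one_le_iff_ne_zero.2 (fun h => h4 (Submodule.finrank_eq_zero.1 h))

end Pool.Agent.Lib.MP_938ce2_ag_h71
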