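import Mathlib
import Pool.Agent.Lib.MP_938ce2_ag_h71.Blocks

/-!
The number of types which are orthogonal to a nonzero stable subspace of a stable space of odd
functions.
-/

set_option autoImplicit false

namespace Pool.Agent.Lib.MP_938ce2_ag_h71

open Module

variable {X : Type} [Fintype X] {Γ : Type} [Group Γ] [MulAction Γ X]
  {F : Type} [Field F] (c : X → X)

/-- `M` is a stable complement of `W'` in `W`. -/
structure IsStableCompl (Γ : Type) [Group Γ] [MulAction Γ X] (W' W M : Submodule F (X → F)) :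
    Prop where
  inv : Inv Γ M
  inf : M ⊓ W' = ⊥
  sup : M ⊔ W' = W

theorem IsStableCompl.unique {W' W M : Submodule F (X → F)} (h : IsStableCompl Γ W' W M)
    {w m m' : X → F} (hm : m ∈ M) (hm' : m' ∈ M) (h1 : w - m ∈ W') (h2 : w - m' ∈ W') :
    m = m' := by
  have h3 : m - m' ∈ M ⊓ W' := by
    refine ⟨M.sub_mem hm hm', ?_⟩
    have : m - m' = (w - m') - (w - m) := by abel
    rw [this]
    exact W'.sub_mem h2 h1
  rw [h.inf, Submodule.mem_bot] at h3
  exact sub_eq_zero.1 h3

theorem IsStableCompl.exists_proj {W' W M : Submodule F (X → F)} (h : IsStableCompl Γ W' W M)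
    {w : X → F} (hw : w ∈ W) : ∃ m ∈ M, w - m ∈ W' := by
  rw [← h.sup] at hw
  obtain ⟨m, hm, v, hv, rfl⟩ := Submodule.mem_sup.1 hw
  exact ⟨m, hm, by simpa using hv⟩

theorem IsStableCompl.le {W' W M : Submodule F (X → F)} (h : IsStableCompl Γ W' W M) : M ≤ W := by
  rw [← h.sup]; exact le_sup_left

theorem cut_sub (x₀ : X) (f f' : X → F) :
    cut c Γ x₀ (f - f') = cut c Γ x₀ f - cut c Γ x₀ f' := by
  funext y
  unfold cut
  by_cases h : Blk Γ c x₀ y <;> simp [h]

/-- If the projections of the elements of the block part of `M₁` have the same values at `x₀`, the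
complements are equal. -/
theorem compl_le_of_eval (h2 : (2 : F) ≠ 0) (hc : ∀ x, c (c x) = x)
    (hcomm : ∀ (γ : Γ) (x : X), c (γ • x) = γ • c x) [MulAction.IsPretransitive Γ X] (x₀ : X)
    {W' W M₁ M M' : Submodule F (X → F)} (hW' : Inv Γ W') (hodd : Odd c W)
    (h₁ : IsStableCompl Γ W' W M₁) (h : IsStableCompl Γ W' W M) (h' : IsStableCompl Γ W' W M')
    (hev : ∀ w ∈ M₁ ⊓ suppBlk c F Γ x₀, ∀ m ∈ M, ∀ m' ∈ M', w - m ∈ W' → w - m' ∈ W' →
      m x₀ = m' x₀) : M ≤ M' := by
  intro m hm
  have hW'W : W' ≤ W := by rw [← h.sup]; exact le_sup_right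
  have hoddW' : Odd c W' := fun f hf => hodd f (hW'W hf)
  have hoddM : Odd c M := fun f hf => hodd f (h.le hf)
  have hoddM' : Odd c M' := fun f hf => hodd f (h'.le hf)
  have hoddM₁ : Odd c M₁ := fun f hf => hodd f (h₁.le hf)
  obtain ⟨w, hw, hmw⟩ := h₁.exists_proj (h.le hm)
  have hwm : w - m ∈ W' := by
    have := W'.neg_mem hmw
    rwa [neg_sub] at this
  obtain ⟨m', hm', hwm'⟩ := h'.exists_proj (h₁.le hw)
  have hmm : m = m' := by
    funext y
    obtain ⟨γ, rfl⟩ := MulAction.exists_smul_eq Γ x₀ y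
    have a1 := cut_mem c h2 hc hcomm M₁ h₁.inv hoddM₁ x₀ _ (h₁.inv γ w hw)
    have a2 := cut_mem c h2 hc hcomm M h.inv hoddM x₀ _ (h.inv γ m hm)
    have a3 := cut_mem c h2 hc hcomm M' h'.inv hoddM' x₀ _ (h'.inv γ m' hm')
    have a4 := cut_mem c h2 hc hcomm W' hW' hoddW' x₀ _ (hW' γ _ hwm)
    have a5 := cut_mem c h2 hc hcomm W' hW' hoddW' x₀ _ (hW' γ _ hwm')
    have e4 : (fun x => (w - m) (γ • x)) = (fun x => w (γ • x)) - (fun x => m (γ • x)) := rfl
    have e5 : (fun x => (w - m') (γ • x)) = (fun x => w (γ • x)) - (fun x => m' (γ • x)) := rfl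
    rw [e4, cut_sub] at a4
    rw [e5, cut_sub] at a5
    have := hev _ ⟨a1, cut_mem_suppBlk c x₀ _⟩ _ a2 _ a3 a4 a5
    rwa [cut_self, cut_self] at this
  rw [hmm]; exact hm'

open Classical in
theorem card_compl_le [Fintype F] (h2 : (2 : F) ≠ 0) (hc : ∀ x, c (c x) = x)
    (hcomm : ∀ (γ : Γ) (x : X), c (γ • x) = γ • c x) [MulAction.IsPretransitive Γ X] (x₀ : X)
    {W' W M₁ : Submodule F (X → F)} (hW' : Inv Γ W') (hodd : Odd c W)
    (h₁ : IsStableCompl Γ W' W M₁) :
    Nat.card {M : Submodule F (X → F) // IsStableCompl Γ W' W M} ≤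
      Fintype.card F ^ finrank F (M₁ ⊓ suppBlk c F Γ x₀ : Submodule F (X → F)) := by
  set U := (M₁ ⊓ suppBlk c F Γ x₀ : Submodule F (X → F)) with hU
  have hUW : ∀ w ∈ U, w ∈ W := fun w hw => h₁.le hw.1
  let pr : {M : Submodule F (X → F) // IsStableCompl Γ W' W M} → (X → F) → (X → F) :=
    fun M w => if h : ∃ m ∈ M.1, w - m ∈ W' then h.choose else 0
  have hpr : ∀ (M : {M : Submodule F (X → F) // IsStableCompl Γ W' W M}) (w m : X → F),
      m ∈ M.1 → w - m ∈ W' → pr M w = m := by
    intro M w m hm hwm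
    have hex : ∃ m ∈ M.1, w - m ∈ W' := ⟨m, hm, hwm⟩
    have e : pr M w = hex.choose := by simp only [pr]; rw [dif_pos hex]
    rw [e]
    exact M.2.unique hex.choose_spec.1 hm hex.choose_spec.2 hwm
  let lam : {M : Submodule F (X → F) // IsStableCompl Γ W' W M} → Dual F U := fun M =>
    { toFun := fun w => pr M w x₀
      map_add' := by
        intro w w'
        obtain ⟨m, hm, h1⟩ := M.2.exists_proj (hUW w w.2)
        obtain ⟨m', hm', h1'⟩ := M.2.exists_proj (hUW w' w'.2)
        have h3 : ((w + w' : U) : X → F) - (m + m') ∈ W' := by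
          have : ((w + w' : U) : X → F) - (m + m') = ((w : X → F) - m) + ((w' : X → F) - m') := by
            rw [Submodule.coe_add]; abel
          rw [this]; exact W'.add_mem h1 h1'
        rw [hpr M _ _ hm h1, hpr M _ _ hm' h1', hpr M _ _ (M.1.add_mem hm hm') h3]
        rfl
      map_smul' := by
        intro r w
        obtain ⟨m, hm, h1⟩ := M.2.exists_proj (hUW w w.2)
        have h3 : ((r • w : U) : X → F) - r • m ∈ W' := by
          have : ((r • w : U) : X → F) - r • m = r • ((w : X → F) - m) := by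
            rw [Submodule.coe_smul, smul_sub]
          rw [this]; exact W'.smul_mem _ h1
        rw [hpr M _ _ hm h1, hpr M _ _ (M.1.smul_mem r hm) h3]
        rfl }
  have hlam : Function.Injective lam := by
    intro M M' hMM
    apply Subtype.ext
    have hev : ∀ (w : U), pr M w x₀ = pr M' w x₀ := fun w => LinearMap.congr_fun hMM w
    apply le_antisymm
    · apply compl_le_of_eval c h2 hc hcomm x₀ hW' hodd h₁ M.2 M'.2
      intro w hw m hm m' hm' h3 h4
      have := hev ⟨w, hw⟩
      rwa [hpr M w m hm h3, hpr M' w m' hm' h4] at this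
    · apply compl_le_of_eval c h2 hc hcomm x₀ hW' hodd h₁ M'.2 M.2
      intro w hw m hm m' hm' h3 h4
      have := hev ⟨w, hw⟩
      rw [hpr M' w m hm h3, hpr M w m' hm' h4] at this
      exact this.symm
  have : Finite (Dual F U) := Module.finite_of_finite F
  have h5 := Nat.card_le_card_of_injective lam hlam
  refine h5.trans ?_
  have h6 : Nat.card (Dual F U) = Nat.card F ^ finrank F (Dual F U) :=
    Module.natCard_eq_pow_finrank
  rw [h6, Subspace.dual_finrank_eq, Nat.card_eq_fintype_card]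

/-- The types orthogonal to some nonzero stable subspace of `W`. -/
def badTypes (Γ : Type) [Group Γ] [MulAction Γ X] (W : Submodule F (X → F)) : Set (Finset X) :=
  {Φ | IsType c Φ ∧ ∃ M : Submodule F (X → F), M ≤ W ∧ Inv Γ M ∧ M ≠ ⊥ ∧ Orth M Φ}

variable [DecidableEq X]

theorem card_badTypes_le [Fintype F] (h2 : (2 : F) ≠ 0) (hc : ∀ x, c (c x) = x)
    (hne : ∀ x, c x ≠ x) (hcomm : ∀ (γ : Γ) (x : X), c (γ • x) = γ • c x)
    [MulAction.IsPretransitive Γ X] (g : ℕ) (hg : Fintype.card X = 2 * g) (x₀ : X) (b : ℕ)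
    (hb : b ≤ Nat.card (Quotient (blkSetoid Γ c))) (hq : Fintype.card F ≤ 2 ^ b)
    (W : Submodule F (X → F)) (hinv : Inv Γ W) (hodd : Odd c W) :
    b * (2 ^ b * (badTypes c Γ W).ncard) ≤ Fintype.card F * (finrank F W * 2 ^ g) := by
  classical
  induction' hn : finrank F W using Nat.strong_induction_on with n ih generalizing W
  by_cases hW : W = ⊥
  · have : badTypes c Γ W = ∅ := by
      rw [Set.eq_empty_iff_forall_notMem]
      rintro Φ ⟨-, M, hM, -, hM0, -⟩
      exact hM0 (le_bot_iff.1 (hW ▸ hM))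
    rw [this, Set.ncard_empty]
    simp
  -- a maximal stable proper subspace
  obtain ⟨W', hW'1, hW'2, hmax⟩ : ∃ W' : Submodule F (X → F), Inv Γ W' ∧ W' < W ∧
      ∀ W'' : Submodule F (X → F), Inv Γ W'' → W' < W'' → W'' ≤ W → W'' = W := by
    have hfin : Set.Finite {W' : Submodule F (X → F) | Inv Γ W' ∧ W' < W} := Set.toFinite _
    have hne' : {W' : Submodule F (X → F) | Inv Γ W' ∧ W' < W}.Nonempty := by
      refine ⟨⊥, ?_, bot_lt_iff_ne_bot.2 hW⟩
      intro γ f hf
      rw [Submodule.mem_bot] at hf ⊢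
      rw [hf]; rfl
    obtain ⟨W', hW'⟩ := hfin.exists_maximal hne'
    refine ⟨W', hW'.1.1, hW'.1.2, ?_⟩
    intro W'' h1 h3 h4
    by_contra h5
    exact absurd (hW'.2 ⟨h1, lt_of_le_of_ne h4 h5⟩ h3.le) (not_le_of_gt h3)
  have hlt : finrank F W' < finrank F W := Submodule.finrank_lt_finrank_of_lt hW'2
  have hodd' : Odd c W' := fun f hf => hodd f (hW'2.le hf)
  have hih := ih (finrank F W') (hn ▸ hlt) W' hW'1 hodd' rfl
  -- the new types
  let C : Set (Finset X) := {Φ | IsType c Φ ∧ ∃ M : Submodule F (X → F),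
    IsStableCompl Γ W' W M ∧ Orth M Φ}
  have hsub : badTypes c Γ W ⊆ badTypes c Γ W' ∪ C := by
    rintro Φ ⟨hΦ, M, hM, hMinv, hM0, hO⟩
    by_cases hcase : M ⊓ W' = ⊥
    · right
      refine ⟨hΦ, M, ⟨hMinv, hcase, ?_⟩, hO⟩
      apply hmax _ (hMinv.sup hW'1)
      · refine lt_of_le_of_ne le_sup_right ?_
        intro h
        apply hM0
        have h1 : M ≤ W' := by rw [h]; exact le_sup_left
        rw [← hcase]
        exact (inf_eq_left.2 h1).symm
      · exact sup_le hM hW'2.le
    · left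
      exact ⟨hΦ, M ⊓ W', inf_le_right, hMinv.inf hW'1, hcase, fun f hf => hO f hf.1⟩
  have hunion : (badTypes c Γ W).ncard ≤ (badTypes c Γ W').ncard + C.ncard :=
    (Set.ncard_le_ncard hsub (Set.toFinite _)).trans (Set.ncard_union_le _ _)
  -- the bound for the new types
  have hC : b * (2 ^ b * C.ncard) ≤
      Fintype.card F * ((finrank F W - finrank F W') * 2 ^ g) := by
    by_cases hex : ∃ M₁ : Submodule F (X → F), IsStableCompl Γ W' W M₁
    · obtain ⟨M₁, hM₁⟩ := hex
      have hcard := card_compl_le c h2 hc hcomm x₀ hW'1 hodd hM₁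
      set d := finrank F (M₁ ⊓ suppBlk c F Γ x₀ : Submodule F (X → F)) with hd
      have hD : ∀ M : Submodule F (X → F), IsStableCompl Γ W' W M →
          finrank F M = finrank F W - finrank F W' := by
        intro M hM
        have h1 := Submodule.finrank_sup_add_finrank_inf_eq M W'
        rw [hM.sup, hM.inf, finrank_bot] at h1
        omega
      have hoddM₁ : Odd c M₁ := fun f hf => hodd f (hM₁.le hf)
      have hM₁0 : M₁ ≠ ⊥ := by
        rintro rfl
        have := hM₁.sup
        rw [bot_sup_eq] at this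
        exact absurd this hW'2.ne
      have hd1 : 1 ≤ d := one_le_finrank c h2 hc hcomm x₀ M₁ hM₁.inv hoddM₁ hM₁0
      have hDd : b * d ≤ finrank F W - finrank F W' := by
        rw [← hD M₁ hM₁]
        exact (Nat.mul_le_mul_right d hb).trans (finrank_ge c hcomm x₀ M₁ hM₁.inv)
      set D := finrank F W - finrank F W' with hDdef
      -- `C` is a union over the complements
      let 𝒞 : Finset (Submodule F (X → F)) :=
        (Set.toFinite {M : Submodule F (X → F) | IsStableCompl Γ W' W M}).toFinset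
      have h𝒞 : 𝒞.card ≤ Fintype.card F ^ d := by
        have : Nat.card {M : Submodule F (X → F) // IsStableCompl Γ W' W M} = 𝒞.card := by
          change Nat.card ({M : Submodule F (X → F) | IsStableCompl Γ W' W M} : Set _) = _
          rw [Nat.card_coe_set_eq, Set.ncard_eq_toFinset_card _ (Set.toFinite _)]
        rw [← this]; exact hcard
      have hCsub : (C : Set (Finset X)) ⊆ ((𝒞.biUnion (fun M => Set.Finite.toFinset
          (Set.toFinite {Φ : Finset X | IsType c Φ ∧ Orth M Φ})) : Finset (Finset X)) :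
            Set (Finset X)) := by
        rintro Φ ⟨hΦ, M, hM, hO⟩
        simp only [Finset.coe_biUnion, Set.mem_iUnion, Finset.mem_coe,
          Set.Finite.mem_toFinset, Set.mem_ofPred_eq]
        exact ⟨M, by simpa [𝒞] using hM, hΦ, hO⟩
      have hCcard : C.ncard * 2 ^ D ≤ 𝒞.card * 2 ^ g := by
        have h1 : C.ncard ≤ ∑ M ∈ 𝒞, (Set.Finite.toFinset
            (Set.toFinite {Φ : Finset X | IsType c Φ ∧ Orth M Φ})).card := by
          refine (Set.ncard_le_ncard hCsub (Set.toFinite _)).trans ?_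
          rw [Set.ncard_coe_finset]
          exact Finset.card_biUnion_le
        calc C.ncard * 2 ^ D ≤ (∑ M ∈ 𝒞, (Set.Finite.toFinset
            (Set.toFinite {Φ : Finset X | IsType c Φ ∧ Orth M Φ})).card) * 2 ^ D :=
              Nat.mul_le_mul_right _ h1
          _ = ∑ M ∈ 𝒞, (Set.Finite.toFinset
            (Set.toFinite {Φ : Finset X | IsType c Φ ∧ Orth M Φ})).card * 2 ^ D := by
              rw [Finset.sum_mul]
          _ ≤ ∑ M ∈ 𝒞, 2 ^ g := by
              apply Finset.sum_le_sum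
              intro M hM
              have hM' : IsStableCompl Γ W' W M := by simpa [𝒞] using hM
              rw [← hD M hM']
              exact card_orth_mul_le h2 c hc hne g hg M (fun f hf => hodd f (hM'.le hf))
          _ = 𝒞.card * 2 ^ g := by rw [Finset.sum_const, smul_eq_mul]
      have hfinal : C.ncard * (2 ^ b) ^ d ≤ Fintype.card F ^ d * 2 ^ g := by
        calc C.ncard * (2 ^ b) ^ d ≤ C.ncard * 2 ^ D := by
              apply Nat.mul_le_mul_left
              rw [← pow_mul]
              exact Nat.pow_le_pow_right (by norm_num) hDd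
          _ ≤ 𝒞.card * 2 ^ g := hCcard
          _ ≤ Fintype.card F ^ d * 2 ^ g := Nat.mul_le_mul_right _ h𝒞
      obtain ⟨e, he⟩ : ∃ e, d = e + 1 := ⟨d - 1, by omega⟩
      rw [he] at hfinal
      have hfinal2 : C.ncard * 2 ^ b ≤ Fintype.card F * 2 ^ g := by
        have hpos : 0 < (2 ^ b) ^ e := by positivity
        apply Nat.le_of_mul_le_mul_right _ hpos
        calc C.ncard * 2 ^ b * (2 ^ b) ^ e = C.ncard * (2 ^ b) ^ (e + 1) := by ring
          _ ≤ Fintype.card F ^ (e + 1) * 2 ^ g := hfinal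
          _ = Fintype.card F * 2 ^ g * Fintype.card F ^ e := by ring
          _ ≤ Fintype.card F * 2 ^ g * (2 ^ b) ^ e :=
              Nat.mul_le_mul_left _ (Nat.pow_le_pow_left hq e)
      have hbD : b ≤ D := by
        refine le_trans ?_ hDd
        exact Nat.le_mul_of_pos_right b hd1
      calc b * (2 ^ b * C.ncard) = b * (C.ncard * 2 ^ b) := by ring
        _ ≤ D * (Fintype.card F * 2 ^ g) := Nat.mul_le_mul hbD hfinal2
        _ = Fintype.card F * (D * 2 ^ g) := by ring
    · have : C = ∅ := by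
        rw [Set.eq_empty_iff_forall_notMem]
        rintro Φ ⟨-, M, hM, -⟩
        exact hex ⟨M, hM⟩
      rw [this, Set.ncard_empty]
      simp
  calc b * (2 ^ b * (badTypes c Γ W).ncard)
      ≤ b * (2 ^ b * ((badTypes c Γ W').ncard + C.ncard)) := by gcongr
    _ = b * (2 ^ b * (badTypes c Γ W').ncard) + b * (2 ^ b * C.ncard) := by ring
    _ ≤ Fintype.card F * (finrank F W' * 2 ^ g) +
        Fintype.card F * ((finrank F W - finrank F W') * 2 ^ g) := Nat.add_le_add hih hC
    _ = Fintype.card F * ((finrank F W' + (finrank F W - finrank F W')) * 2 ^ g) := by ring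
    _ = Fintype.card F * (n * 2 ^ g) := by
        rw [Nat.add_sub_cancel' hlt.le, hn]

end Pool.Agent.Lib.MP_938ce2_ag_h71
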