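import Mathlib
import Pool.Agent.Lib.MP_938ce2_ag_h71.Count
import Pool.Agent.Lib.MP_938ce2_ag_h60.GSet

/-!
Degenerate CM types and their reductions modulo a prime.
-/

set_option autoImplicit false

namespace Pool.Agent.Lib.MP_938ce2_ag_h71

open Module
open Pool.Agent.Lib.MP_938ce2_ag_h60 (CMType Nondeg GeneratedByDivisors
  generatedByDivisors_of_nondeg)

variable {Γ : Type} [Group Γ] {X : Type} [MulAction Γ X]

/-- If no nonzero odd function modulo `p` is orthogonal to the conjugates of the CM type, the type is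
nondegenerate. -/
theorem nondeg_of_mod (p : ℕ) (hp : 1 < p) (c : Γ) (Φ : Finset X)
    (H : ∀ f : X → ZMod p, (∀ x, f (c • x) = - f x) → (∀ γ : Γ, ∑ φ ∈ Φ, f (γ • φ) = 0) →
      ∀ x, f x = 0) : Nondeg c Φ := by
  have key : ∀ k : ℕ, ∀ h : X → ℤ, (∀ x, h (c • x) = - h x) →
      (∀ γ : Γ, ∑ φ ∈ Φ, h (γ • φ) = 0) → ∀ x, ((p : ℤ) ^ k) ∣ h x := by
    intro k
    induction k with
    | zero => intro h _ _ x; simp
    | succ k ih =>
      intro h h1 h2 x
      have hdiv : ∀ x, (p : ℤ) ∣ h x := by
        intro x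
        rw [← ZMod.intCast_zmod_eq_zero_iff_dvd]
        apply H (fun y => (h y : ZMod p))
        · intro y; simp [h1]
        · intro γ
          have := congrArg (fun z : ℤ => (z : ZMod p)) (h2 γ)
          simpa using this
      choose h' hh' using hdiv
      have hp0 : (p : ℤ) ≠ 0 := by
        have : (0 : ℤ) < p := by exact_mod_cast (by omega : 0 < p)
        exact this.ne'
      have h1' : ∀ x, h' (c • x) = - h' x := by
        intro x
        have e := h1 x
        rw [hh', hh' x] at e
        have : (p : ℤ) * h' (c • x) = p * (- h' x) := by rw [e]; ring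
        exact mul_left_cancel₀ hp0 this
      have h2' : ∀ γ : Γ, ∑ φ ∈ Φ, h' (γ • φ) = 0 := by
        intro γ
        have e := h2 γ
        simp only [hh'] at e
        rw [← Finset.mul_sum] at e
        exact (mul_eq_zero.1 e).resolve_left hp0
      rw [hh' x, pow_succ, mul_comm]
      exact mul_dvd_mul_left _ (ih h' h1' h2' x)
  intro h h1 h2 x
  by_contra hx
  have h3 := key (h x).natAbs h h1 h2 x
  have h4 : ((p : ℤ) ^ (h x).natAbs).natAbs ≤ (h x).natAbs :=
    Nat.le_of_dvd (Int.natAbs_pos.2 hx) (Int.natAbs_dvd_natAbs.2 h3)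
  rw [Int.natAbs_pow, Int.natAbs_natCast] at h4
  exact absurd h4 (not_le_of_gt (Nat.lt_pow_self hp))

variable [Fintype X]

/-- The space of the odd functions. -/
def oddSub (F : Type) [Field F] (c : X → X) : Submodule F (X → F) where
  carrier := {f | ∀ x, f (c x) = - f x}
  add_mem' := by
    intro a b ha hb x
    rw [Pi.add_apply, ha x, hb x, Pi.add_apply]; ring
  zero_mem' := fun _ => by simp
  smul_mem' := by
    intro r a ha x
    rw [Pi.smul_apply, ha x, Pi.smul_apply, smul_neg]

theorem finrank_oddSub_le (F : Type) [Field F] (c : X → X) (hc : ∀ x, c (c x) = x)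
    (hne : ∀ x, c x ≠ x) (g : ℕ) (hg : Fintype.card X = 2 * g) :
    finrank F (oddSub F c) ≤ g := by
  classical
  obtain ⟨Φ₀, h₀⟩ := exists_section c hc hne
  have hinj : Function.Injective c := fun x y h => by rw [← hc x, h, hc]
  have hcompl : Φ₀.image c = Φ₀ᶜ := by
    ext x
    simp only [Finset.mem_image, Finset.mem_compl]
    constructor
    · rintro ⟨y, hy, rfl⟩
      exact (h₀ y).1 hy
    · intro hx
      refine ⟨c x, ?_, hc x⟩
      rw [h₀ (c x), hc]; exact hx
  have hcard : Φ₀.card = g := by
    have h1 := Finset.card_add_card_compl Φ₀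
    rw [← hcompl, Finset.card_image_of_injective _ hinj, hg] at h1
    omega
  let R : oddSub F c →ₗ[F] (Φ₀ → F) :=
    { toFun := fun f x => f.1 x
      map_add' := fun _ _ => rfl
      map_smul' := fun _ _ => rfl }
  have hR : Function.Injective R := by
    rw [← LinearMap.ker_eq_bot, LinearMap.ker_eq_bot']
    intro f hf
    apply Subtype.ext
    funext x
    by_cases hx : x ∈ Φ₀
    · exact congrFun hf ⟨x, hx⟩
    · have hcx : c x ∈ Φ₀ := by
        rw [h₀ (c x), hc]; exact hx
      have h1 : f.1 (c x) = 0 := congrFun hf ⟨c x, hcx⟩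
      rw [f.2 x] at h1
      exact neg_eq_zero.1 h1
  have := LinearMap.finrank_le_finrank_of_injective hR
  rwa [finrank_fintype_fun_eq_card, Fintype.card_coe, hcard] at this

theorem inv_oddSub (F : Type) [Field F] (c : Γ) (hcc : ∀ γ : Γ, c * γ = γ * c) :
    Inv Γ (oddSub F (fun x : X => c • x)) := by
  intro γ f hf x
  change f (γ • c • x) = - f (γ • x)
  rw [← mul_smul, ← hcc, mul_smul]
  exact hf (γ • x)

/-- The types which are not orthogonal to a nonzero stable space of odd functions modulo `p` are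
nondegenerate. -/
theorem nondeg_of_notMem_badTypes (p : ℕ) [hp : Fact p.Prime] (c : Γ)
    (hcc : ∀ γ : Γ, c * γ = γ * c) (Φ : Finset X) (hΦ : CMType c Φ)
    (hbad : Φ ∉ badTypes (fun x : X => c • x) Γ (oddSub (ZMod p) (fun x : X => c • x))) :
    Nondeg c Φ := by
  apply nondeg_of_mod p hp.out.one_lt
  intro f hf hsum
  by_contra! hne
  obtain ⟨x₁, hx₁⟩ := hne
  apply hbad
  refine ⟨hΦ, ?_⟩
  let M : Submodule (ZMod p) (X → ZMod p) :=
    { carrier := {f | (∀ x, f (c • x) = - f x) ∧ ∀ γ : Γ, ∑ φ ∈ Φ, f (γ • φ) = 0}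
      add_mem' := by
        rintro a b ⟨ha, ha'⟩ ⟨hb, hb'⟩
        refine ⟨fun x => ?_, fun γ => ?_⟩
        · rw [Pi.add_apply, ha x, hb x, Pi.add_apply]; ring
        · simp only [Pi.add_apply, Finset.sum_add_distrib, ha' γ, hb' γ, add_zero]
      zero_mem' := ⟨fun _ => by simp, fun _ => by simp⟩
      smul_mem' := by
        rintro r a ⟨ha, ha'⟩
        refine ⟨fun x => ?_, fun γ => ?_⟩
        · rw [Pi.smul_apply, ha x, Pi.smul_apply, smul_neg]
        · simp only [Pi.smul_apply, smul_eq_mul]
          rw [← Finset.mul_sum, ha' γ, mul_zero] }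
  refine ⟨M, fun a ha => ha.1, ?_, ?_, ?_⟩
  · rintro γ a ⟨ha, ha'⟩
    refine ⟨fun x => ?_, fun δ => ?_⟩
    · change a (γ • c • x) = - a (γ • x)
      rw [← mul_smul, ← hcc, mul_smul]
      exact ha (γ • x)
    · have := ha' (γ * δ)
      simpa only [mul_smul] using this
  · rw [Submodule.ne_bot_iff]
    exact ⟨f, ⟨hf, hsum⟩, fun h => hx₁ (congrFun h x₁)⟩
  · intro a ha
    have := ha.2 1
    simpa only [one_smul] using this

/-- The signs by which the elements mapping every point to itself or its conjugate act determine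
these elements; hence their number is at most `2` to the number of blocks. -/
theorem card_signElt_le [FaithfulSMul Γ X] (c : X → X) :
    Nat.card {n : Γ // IsSignElt c n} ≤ 2 ^ Nat.card (Quotient (blkSetoid (X := X) Γ c)) := by
  classical
  have : Finite (Quotient (blkSetoid (X := X) Γ c)) := Quotient.finite _
  let e : {n : Γ // IsSignElt c n} → (Quotient (blkSetoid (X := X) Γ c) → Prop) := fun n =>
    Quotient.lift (fun x => n.1 • x = x) (by
      intro x y hxy
      exact propext (hxy n.1 n.2))
  have he : Function.Injective e := by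
    intro n n' h
    apply Subtype.ext
    apply FaithfulSMul.eq_of_smul_eq_smul (α := X)
    intro x
    have h1 : (n.1 • x = x) = (n'.1 • x = x) := congrFun h (Quotient.mk _ x)
    rcases n.2 x with h2 | h2
    · have h3 : n'.1 • x = x := h1 ▸ h2
      rw [h2, h3]
    · rcases n'.2 x with h3 | h3
      · have h4 : n.1 • x = x := h1 ▸ h3
        rw [h4, h3]
      · rw [h2, h3]
  have h1 := Nat.card_le_card_of_injective e he
  refine h1.trans ?_
  rw [Nat.card_fun]
  have : Nat.card Prop = 2 := by simp
  rw [this]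

end Pool.Agent.Lib.MP_938ce2_ag_h71
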