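import Mathlib
import Pool.Agent.Lib.MP_938ce2_ag_h71.Lift

/-!
CM fields of degree `2 p ^ k`, `p` an odd prime: the orbits of a Sylow `p`-subgroup on the set of
embeddings.
-/

set_option autoImplicit false

namespace Pool.Agent.Lib.MP_938ce2_ag_h71

open Module
open Pool.Agent.Lib.MP_938ce2_ag_h60 (CMType Nondeg GeneratedByDivisors
  generatedByDivisors_of_nondeg)

variable {Γ : Type} [Group Γ] {X : Type} [MulAction Γ X]

theorem natCard_orbit_mul (G : Type) [Group G] {Y : Type} [MulAction G Y] (x : Y) :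
    Nat.card (MulAction.orbit G x) * Nat.card (MulAction.stabilizer G x) = Nat.card G := by
  rw [← Nat.card_prod]
  exact Nat.card_congr (MulAction.orbitProdStabilizerEquivGroup G x)

/-- Conjugate points are not in the same orbit of a group of odd order. -/
theorem conj_notMem_orbit (c : Γ) (hcc : ∀ γ : Γ, c * γ = γ * c) (hc2 : c * c = 1)
    (hcx : ∀ x : X, c • x ≠ x) (p : ℕ) [hp : Fact p.Prime] (hp2 : p ≠ 2) (P : Subgroup Γ)
    (hP : IsPGroup p P) (x y : X) (hy : y ∈ MulAction.orbit P x) :
    c • y ∉ MulAction.orbit P x := by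
  intro hcy
  obtain ⟨a, ha⟩ := hy
  obtain ⟨b, hb⟩ := hcy
  obtain ⟨π, hπ⟩ : ∃ π : P, π • y = c • y := by
    refine ⟨b * a⁻¹, ?_⟩
    have ha' : a • x = y := ha
    have hb' : b • x = c • y := hb
    rw [mul_smul, ← hb', ← ha', inv_smul_smul]
  have hπ2 : (π ^ 2) • y = y := by
    rw [pow_two, mul_smul, hπ]
    change (π : Γ) • c • y = y
    rw [← mul_smul, ← hcc, mul_smul]
    have : (π : Γ) • y = c • y := hπ
    rw [this, ← mul_smul, hc2, one_smul]
  obtain ⟨m, hm⟩ := hP π
  have hodd : _root_.Odd (p ^ m) := (hp.out.odd_of_ne_two hp2).pow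
  obtain ⟨s, hs⟩ := hodd
  have hπs : π = (π ^ 2) ^ (s + 1) := by
    rw [← pow_mul]
    have : 2 * (s + 1) = p ^ m + 1 := by omega
    rw [this, pow_succ, hm, one_mul]
  have hfix : ∀ k : ℕ, ((π ^ 2) ^ k) • y = y := by
    intro k
    induction k with
    | zero => simp
    | succ k ih => rw [pow_succ, mul_smul, hπ2, ih]
  have : π • y = y := by
    nth_rewrite 1 [hπs]
    exact hfix _
  rw [hπ] at this
  exact hcx y this

variable [Fintype X]

open Classical in
theorem orbit_or_conj [Finite Γ] [MulAction.IsPretransitive Γ X] (c : Γ)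
    (hcc : ∀ γ : Γ, c * γ = γ * c) (hc2 : c * c = 1)
    (hcx : ∀ x : X, c • x ≠ x) (p k : ℕ) [hp : Fact p.Prime] (hp2 : p ≠ 2)
    (hX : Fintype.card X = 2 * p ^ k) (P : Sylow p Γ) (x y : X) :
    y ∈ MulAction.orbit P x ∨ c • y ∈ MulAction.orbit P x := by
  have := Fintype.ofFinite Γ
  -- the size of the orbit
  have hO : p ^ k ≤ Nat.card (MulAction.orbit P x) := by
    have h1 : Nat.card (MulAction.orbit P x) * Nat.card (MulAction.stabilizer P x) =
        Nat.card P := natCard_orbit_mul P x
    have h2 : Nat.card (MulAction.orbit Γ x) * Nat.card (MulAction.stabilizer Γ x) =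
        Nat.card Γ := natCard_orbit_mul Γ x
    have h3 : Nat.card (MulAction.orbit Γ x) = 2 * p ^ k := by
      rw [MulAction.orbit_eq_univ, Nat.card_univ, Nat.card_eq_fintype_card, hX]
    have h4 : Nat.card (MulAction.stabilizer P x) ∣ Nat.card (MulAction.stabilizer Γ x) := by
      let i : MulAction.stabilizer P x →* MulAction.stabilizer Γ x :=
        { toFun := fun s => ⟨(s.1 : Γ), s.2⟩
          map_one' := rfl
          map_mul' := fun _ _ => rfl }
      apply Subgroup.card_dvd_of_injective i
      intro s t h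
      apply Subtype.ext
      apply Subtype.ext
      exact congrArg (fun z : MulAction.stabilizer Γ x => (z : Γ)) h
    obtain ⟨a, ha⟩ : ∃ a, Nat.card (MulAction.stabilizer P x) = p ^ a := by
      have hPs : IsPGroup p (MulAction.stabilizer P x) := P.isPGroup'.to_subgroup _
      exact IsPGroup.iff_card.1 hPs
    have h5 : Nat.card P = p ^ (Nat.card Γ).factorization p := P.card_eq_multiplicity
    rw [ha] at h4 h1
    have h6 : p ^ (a + k) ∣ Nat.card Γ := by
      rw [← h2, h3, pow_add, mul_comm]
      exact mul_dvd_mul (Dvd.intro_left _ rfl) h4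
    have h7 : a + k ≤ (Nat.card Γ).factorization p :=
      (hp.out.pow_dvd_iff_le_factorization Nat.card_pos.ne').1 h6
    have h8 : p ^ (a + k) ≤ Nat.card (MulAction.orbit P x) * p ^ a := by
      rw [h1, h5]
      exact Nat.pow_le_pow_right hp.out.pos h7
    rw [pow_add, mul_comm] at h8
    exact Nat.le_of_mul_le_mul_right h8 (pow_pos hp.out.pos a)
  by_contra! h
  -- three disjoint subsets
  let O : Finset X := Finset.univ.filter (fun z => z ∈ MulAction.orbit P x)
  have hOc : O.card = Nat.card (MulAction.orbit P x) := by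
    have e : (MulAction.orbit P x : Set X) = (O : Set X) := by
      ext z
      simp [O]
    rw [Nat.card_coe_set_eq, e, Set.ncard_coe_finset]
  have hinj : Function.Injective (fun z : X => c • z) := MulAction.injective c
  have hdisj : Disjoint O (O.image (fun z => c • z)) := by
    rw [Finset.disjoint_left]
    intro z hz hz'
    obtain ⟨w, hw, rfl⟩ := Finset.mem_image.1 hz'
    simp only [O, Finset.mem_filter, Finset.mem_univ, true_and] at hz hw
    exact conj_notMem_orbit c hcc hc2 hcx p hp2 P.1 P.isPGroup' x w hw hz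
  have hy : y ∉ O ∪ O.image (fun z => c • z) := by
    rw [Finset.mem_union]
    rintro (h' | h')
    · simp only [O, Finset.mem_filter, Finset.mem_univ, true_and] at h'
      exact h.1 h'
    · obtain ⟨w, hw, hw'⟩ := Finset.mem_image.1 h'
      simp only [O, Finset.mem_filter, Finset.mem_univ, true_and] at hw
      apply h.2
      rw [← hw', ← mul_smul, hc2, one_smul]
      exact hw
  have hcard : (O ∪ O.image (fun z => c • z)).card < Fintype.card X :=
    Finset.card_lt_univ_of_notMem hy
  rw [Finset.card_union_of_disjoint hdisj, Finset.card_image_of_injective _ hinj, hOc, hX] at hcard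
  omega

open Classical in
/-- Let `E` be a CM field of degree `2 p ^ k`, `p` an odd prime, `P` a Sylow `p`-subgroup of the
Galois group of its Galois closure and `O` an orbit of `P` on the set of embeddings of `E`. If the
number of elements of `O` in the CM type is prime to `p`, the CM type is nondegenerate. -/
theorem nondeg_of_sylow [Finite Γ] [MulAction.IsPretransitive Γ X] (c : Γ)
    (hcc : ∀ γ : Γ, c * γ = γ * c) (hc2 : c * c = 1)
    (hcx : ∀ x : X, c • x ≠ x) (p k : ℕ) [hp : Fact p.Prime] (hp2 : p ≠ 2)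
    (hX : Fintype.card X = 2 * p ^ k) (P : Sylow p Γ) (x₀ : X) (Φ : Finset X) (hΦ : CMType c Φ)
    (h : ¬ p ∣ (Φ.filter (fun y => y ∈ MulAction.orbit P x₀)).card) : Nondeg c Φ := by
  apply nondeg_of_mod p hp.out.one_lt
  intro f hf hsum
  by_contra! hne
  obtain ⟨x₁, hx₁⟩ := hne
  -- the finite set of the functions orthogonal to the conjugates of the type
  let M : Type := {f : X → ZMod p // (∀ x, f (c • x) = - f x) ∧ ∀ γ : Γ, ∑ φ ∈ Φ, f (γ • φ) = 0}
  let Mg : AddSubgroup (X → ZMod p) :=
    { carrier := {f | (∀ x, f (c • x) = - f x) ∧ ∀ γ : Γ, ∑ φ ∈ Φ, f (γ • φ) = 0}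
      add_mem' := by
        rintro a b ⟨ha, ha'⟩ ⟨hb, hb'⟩
        refine ⟨fun x => ?_, fun γ => ?_⟩
        · rw [Pi.add_apply, ha x, hb x, Pi.add_apply]; ring
        · simp only [Pi.add_apply, Finset.sum_add_distrib, ha' γ, hb' γ, add_zero]
      zero_mem' := ⟨fun _ => by simp, fun _ => by simp⟩
      neg_mem' := by
        rintro a ⟨ha, ha'⟩
        refine ⟨fun x => ?_, fun γ => ?_⟩
        · rw [Pi.neg_apply, ha x, Pi.neg_apply]
        · simp only [Pi.neg_apply, Finset.sum_neg_distrib, ha' γ, neg_zero] }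
  have hstab : ∀ (γ : Γ) (a : X → ZMod p), a ∈ Mg → (fun x => a (γ⁻¹ • x)) ∈ Mg := by
    rintro γ a ⟨ha, ha'⟩
    refine ⟨fun x => ?_, fun δ => ?_⟩
    · change a (γ⁻¹ • c • x) = - a (γ⁻¹ • x)
      rw [← mul_smul, ← hcc, mul_smul]
      exact ha _
    · have := ha' (γ⁻¹ * δ)
      simpa only [mul_smul] using this
  let act : MulAction P Mg :=
    { smul := fun π a => ⟨fun x => a.1 ((π : Γ)⁻¹ • x), hstab π a.1 a.2⟩
      one_smul := by
        intro a
        apply Subtype.ext
        funext x
        change a.1 (((1 : P) : Γ)⁻¹ • x) = a.1 x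
        simp
      mul_smul := by
        intro π π' a
        apply Subtype.ext
        funext x
        change a.1 (((π * π' : P) : Γ)⁻¹ • x) = a.1 ((π' : Γ)⁻¹ • (π : Γ)⁻¹ • x)
        rw [← mul_smul]
        simp }
  have hfinM : Finite Mg := inferInstance
  have hcardM : p ∣ Nat.card Mg := by
    have hne' : (⟨f, hf, hsum⟩ : Mg) ≠ 0 := by
      intro h0
      have := congrArg (fun z : Mg => z.1 x₁) h0
      exact hx₁ this
    have hord : addOrderOf (⟨f, hf, hsum⟩ : Mg) = p := by
      apply addOrderOf_eq_prime _ hne'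
      apply Subtype.ext
      funext x
      change p • f x = 0
      rw [nsmul_eq_mul]; simp
    have hdv := addOrderOf_dvd_natCard (⟨f, hf, hsum⟩ : Mg)
    generalize addOrderOf (⟨f, hf, hsum⟩ : Mg) = q at hord hdv
    subst hord
    exact hdv
  have hfix0 : (0 : Mg) ∈ MulAction.fixedPoints P Mg := by
    intro π
    apply Subtype.ext
    rfl
  obtain ⟨u, hu, hu0⟩ := P.isPGroup'.exists_fixed_point_of_prime_dvd_card_of_fixed_point
    Mg hcardM hfix0
  have hinvu : ∀ (π : P) (x : X), u.1 (π • x) = u.1 x := by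
    intro π x
    have h1 := congrArg (fun z : Mg => z.1 (π • x)) (hu π)
    have h2 : u.1 ((π : Γ)⁻¹ • π • x) = u.1 (π • x) := h1
    rw [← h2]
    exact congrArg u.1 (inv_smul_smul (π : Γ) x)
  set a := u.1 x₀ with ha
  have hon : ∀ y ∈ MulAction.orbit P x₀, u.1 y = a := by
    rintro y ⟨π, rfl⟩
    exact hinvu π x₀
  have hoff : ∀ y, y ∉ MulAction.orbit P x₀ → u.1 y = -a := by
    intro y hy
    have h1 := (orbit_or_conj c hcc hc2 hcx p k hp2 hX P x₀ y).resolve_left hy
    have h2 := hon _ h1
    rw [u.2.1 y] at h2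
    rw [← h2, neg_neg]
  have ha0 : a ≠ 0 := by
    intro h0
    apply hu0
    apply Subtype.ext
    funext y
    change 0 = u.1 y
    by_cases hy : y ∈ MulAction.orbit P x₀
    · rw [hon y hy, h0]
    · rw [hoff y hy, h0, neg_zero]
  have hΦcard : Φ.card = p ^ k := by
    have hinj : Function.Injective (fun z : X => c • z) := MulAction.injective c
    have hcompl : Φ.image (fun z => c • z) = Φᶜ := by
      ext x
      simp only [Finset.mem_image, Finset.mem_compl]
      constructor
      · rintro ⟨y, hy, rfl⟩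
        exact (hΦ y).1 hy
      · intro hx
        refine ⟨c • x, ?_, by rw [← mul_smul, hc2, one_smul]⟩
        rw [hΦ (c • x), ← mul_smul, hc2, one_smul]; exact hx
    have h1 := Finset.card_add_card_compl Φ
    rw [← hcompl, Finset.card_image_of_injective _ hinj, hX] at h1
    omega
  have hs := u.2.2 1
  simp only [one_smul] at hs
  rw [← Finset.sum_filter_add_sum_filter_not Φ (fun y => y ∈ MulAction.orbit P x₀)] at hs
  rw [Finset.sum_congr rfl (fun y hy => hon y (Finset.mem_filter.1 hy).2),
    Finset.sum_congr rfl (fun y hy => hoff y (Finset.mem_filter.1 hy).2),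
    Finset.sum_const, Finset.sum_const] at hs
  set n := (Φ.filter (fun y => y ∈ MulAction.orbit P x₀)).card with hn
  have hn' : (Φ.filter (fun y => ¬ y ∈ MulAction.orbit P x₀)).card = p ^ k - n := by
    have := Finset.card_filter_add_card_filter_not (s := Φ) (fun y => y ∈ MulAction.orbit P x₀)
    rw [hΦcard] at this
    omega
  have hnle : n ≤ p ^ k := by
    rw [← hΦcard]; exact Finset.card_filter_le _ _
  rw [hn', nsmul_eq_mul, nsmul_eq_mul, Nat.cast_sub hnle] at hs
  have hs2 : (2 * (n : ZMod p) - (p ^ k : ℕ)) * a = 0 := by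
    rw [← hs]; ring
  have hs3 : (2 * (n : ZMod p) - (p ^ k : ℕ)) = 0 := (mul_eq_zero.1 hs2).resolve_right ha0
  rcases Nat.eq_zero_or_pos k with rfl | hk
  · -- `n ≤ 1`, so `n = 1`
    have hn1 : n = 1 := by
      have : n ≠ 0 := fun h0 => h (h0 ▸ dvd_zero p)
      simp at hnle
      omega
    rw [hn1] at hs3
    norm_num at hs3
  · have hpk : ((p ^ k : ℕ) : ZMod p) = 0 := by
      rw [Nat.cast_pow, ZMod.natCast_self, zero_pow hk.ne']
    rw [hpk, sub_zero] at hs3
    have h4 : ((2 * n : ℕ) : ZMod p) = 0 := by push_cast; exact hs3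
    rw [ZMod.natCast_eq_zero_iff] at h4
    rcases (hp.out.dvd_mul).1 h4 with h5 | h5
    · exact hp2 ((Nat.prime_dvd_prime_iff_eq hp.out Nat.prime_two).1 h5)
    · exact h h5

end Pool.Agent.Lib.MP_938ce2_ag_h71
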