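import Mathlib
import Pool.Agent.Lib.MP_938ce2_ag_h71.Lift

/-!
The number of the CM types which are not generated by divisors, for an arbitrary CM field.
-/

set_option autoImplicit false

namespace Pool.Agent.Lib.MP_938ce2_ag_h71

open Module
open Pool.Agent.Lib.MP_938ce2_ag_h60 (CMType Nondeg GeneratedByDivisors
  generatedByDivisors_of_nondeg)

theorem two_ne_zero_mod_three : (2 : ZMod 3) ≠ 0 := by decide

theorem card_not_generated_le {Γ X : Type} [Group Γ] [Fintype Γ] [MulAction Γ X] [Fintype X]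
    [FaithfulSMul Γ X] [MulAction.IsPretransitive Γ X] (c : Γ)
    (hcc : ∀ γ : Γ, c * γ = γ * c) (hc2 : c * c = 1) (hcx : ∀ x : X, c • x ≠ x) (g ν : ℕ)
    (hg : Fintype.card X = 2 * g)
    (hν : Nat.card {n : Γ // ∀ x : X, n • x = x ∨ n • x = c • x} = 2 ^ ν) :
    ν * 2 ^ ν * {Φ : Finset X | CMType c Φ ∧ ¬ GeneratedByDivisors Γ Φ}.ncard
      ≤ 3 * g * 2 ^ g := by
  classical
  have hc : ∀ x : X, c • c • x = x := by
    intro x; rw [← mul_smul, hc2, one_smul]
  have hcomm : ∀ (γ : Γ) (x : X), c • γ • x = γ • c • x := by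
    intro γ x; rw [← mul_smul, hcc, mul_smul]
  rcases Nat.eq_zero_or_pos ν with rfl | hν0
  · simp
  have h3 : Fact (Nat.Prime 3) := ⟨Nat.prime_three⟩
  have hsub : {Φ : Finset X | CMType c Φ ∧ ¬ GeneratedByDivisors Γ Φ} ⊆
      badTypes (fun x : X => c • x) Γ (oddSub (ZMod 3) (fun x : X => c • x)) := by
    rintro Φ ⟨hΦ, hnot⟩
    by_contra hbad
    exact hnot (generatedByDivisors_of_nondeg hcc hc2 hcx hΦ
      (nondeg_of_notMem_badTypes 3 c hcc Φ hΦ hbad))
  have hle : {Φ : Finset X | CMType c Φ ∧ ¬ GeneratedByDivisors Γ Φ}.ncard ≤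
      (badTypes (fun x : X => c • x) Γ (oddSub (ZMod 3) (fun x : X => c • x))).ncard :=
    Set.ncard_le_ncard hsub (Set.toFinite _)
  have hall : {Φ : Finset X | CMType c Φ ∧ ¬ GeneratedByDivisors Γ Φ}.ncard ≤ 2 ^ g := by
    rw [← card_types (fun x : X => c • x) hc hcx g hg,
      ← Set.ncard_eq_toFinset_card _ (Set.toFinite _)]
    exact Set.ncard_le_ncard (fun Φ hΦ => hΦ.1) (Set.toFinite _)
  set N := {Φ : Finset X | CMType c Φ ∧ ¬ GeneratedByDivisors Γ Φ}.ncard with hN
  set b := Nat.card (Quotient (blkSetoid (X := X) Γ (fun x : X => c • x))) with hb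
  have hνb : ν ≤ b := by
    have h1 := card_signElt_le (Γ := Γ) (fun x : X => c • x)
    have h2 : Nat.card {n : Γ // IsSignElt (fun x : X => c • x) n} = 2 ^ ν := hν
    rw [h2] at h1
    exact (Nat.pow_le_pow_iff_right (by norm_num)).1 h1
  by_cases hX : Nonempty X
  · obtain ⟨x₀⟩ := hX
    have hg1 : 1 ≤ g := by
      have : 0 < Fintype.card X := Fintype.card_pos_iff.2 ⟨x₀⟩
      omega
    by_cases hb2 : b ≤ 1
    · have hν1 : ν = 1 := by omega
      subst hν1
      calc 1 * 2 ^ 1 * N ≤ 1 * 2 ^ 1 * 2 ^ g := by gcongr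
        _ ≤ 3 * g * 2 ^ g := by
            apply Nat.mul_le_mul_right
            omega
    · have hq : Fintype.card (ZMod 3) ≤ 2 ^ b := by
        rw [ZMod.card]
        calc 3 ≤ 2 ^ 2 := by norm_num
          _ ≤ 2 ^ b := Nat.pow_le_pow_right (by norm_num) (by omega)
      have h2 : (2 : ZMod 3) ≠ 0 := two_ne_zero_mod_three
      have hmain := card_badTypes_le (fun x : X => c • x) h2 hc hcx hcomm g hg x₀ b le_rfl hq
        (oddSub (ZMod 3) (fun x : X => c • x)) (inv_oddSub (ZMod 3) c hcc) (fun f hf => hf)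
      rw [ZMod.card] at hmain
      have hfr := finrank_oddSub_le (ZMod 3) (fun x : X => c • x) hc hcx g hg
      calc ν * 2 ^ ν * N ≤ b * 2 ^ b *
            (badTypes (fun x : X => c • x) Γ (oddSub (ZMod 3) (fun x : X => c • x))).ncard := by
              gcongr
              · norm_num
        _ = b * (2 ^ b *
            (badTypes (fun x : X => c • x) Γ (oddSub (ZMod 3) (fun x : X => c • x))).ncard) := by
              ring
        _ ≤ 3 * (finrank (ZMod 3) (oddSub (ZMod 3) (fun x : X => c • x)) * 2 ^ g) := hmain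
        _ ≤ 3 * (g * 2 ^ g) := by gcongr
        _ = 3 * g * 2 ^ g := by ring
  · exfalso
    have : IsEmpty X := not_nonempty_iff.1 hX
    have : Subsingleton Γ := by
      constructor
      intro a b
      apply FaithfulSMul.eq_of_smul_eq_smul (α := X)
      intro x; exact (this.false x).elim
    have h1 : Nat.card {n : Γ // ∀ x : X, n • x = x ∨ n • x = c • x} ≤ 1 := by
      have : Subsingleton {n : Γ // ∀ x : X, n • x = x ∨ n • x = c • x} := inferInstance
      exact Finite.card_le_one_iff_subsingleton.2 this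
    rw [hν] at h1
    have : 2 ^ 1 ≤ 2 ^ ν := Nat.pow_le_pow_right (by norm_num) hν0
    omega

end Pool.Agent.Lib.MP_938ce2_ag_h71
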