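import Mathlib
import Pool.Agent.Lib.MP_938ce2_ag_h60.GDefs
import Pool.Agent.Lib.MP_938ce2_ag_h71.Main

/-!
Tate classes on the powers of an abelian variety with complex multiplication by an arbitrary CM
field: the number of CM types for which they are not generated by divisor classes.
-/

set_option autoImplicit false

namespace Pool.Agent.Results.MP_938ce2_ag.GeneralCMFields

open Pool.Agent.Lib.MP_938ce2_ag_h60

/-- `Γ` is the Galois group of the Galois closure `L` of a CM field `E` of degree `2g`, `X` is the
set of the embeddings of `E` in `L` and `c` is complex conjugation. The elements of `Γ` which map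
every embedding to itself or to its conjugate are those which are trivial on the Galois closure of
the maximal real subfield of `E`; their number is `2 ^ ν`. -/
theorem result {Γ X : Type} [Group Γ] [Fintype Γ] [MulAction Γ X] [Fintype X]
    [FaithfulSMul Γ X] [MulAction.IsPretransitive Γ X] (c : Γ)
    (hcc : ∀ γ : Γ, c * γ = γ * c) (hc2 : c * c = 1) (hcx : ∀ x : X, c • x ≠ x) (g ν : ℕ)
    (hg : Fintype.card X = 2 * g)
    (hν : Nat.card {n : Γ // ∀ x : X, n • x = x ∨ n • x = c • x} = 2 ^ ν) :
    ν * 2 ^ ν * {Φ : Finset X | CMType c Φ ∧ ¬ GeneratedByDivisors Γ Φ}.ncard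
      ≤ 3 * g * 2 ^ g :=
  Pool.Agent.Lib.MP_938ce2_ag_h71.card_not_generated_le c hcc hc2 hcx g ν hg hν

end Pool.Agent.Results.MP_938ce2_ag.GeneralCMFields
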